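import Mathlib
import Pool.Agent.H339Z.GraceDefs
import Pool.Agent.H339Z.GraceC

set_option autoImplicit false

namespace Pool.Agent.Results.MP_128071_co.ATwoMMinusDiam

/-- Every finite tree with `m` edges and diameter `D` is a subtree of a graceful tree with at most
`2 m - D` edges. -/
theorem result (V : Type) [Fintype V] (T : SimpleGraph V) (hT : T.IsTree) :
    ∃ (W : Type) (_ : Fintype W) (T' : SimpleGraph W), T'.IsTree ∧
      Pool.Agent.H339Z.Grace.Graceful T' ∧ T.IsContained T' ∧
      T'.edgeSet.ncard + T.diam ≤ 2 * T.edgeSet.ncard :=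
  Pool.Agent.H339Z.Grace.main T hT

end Pool.Agent.Results.MP_128071_co.ATwoMMinusDiam
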